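import Pool.Agent.Helper10.Sub.Hasse

/-!
# Roth's lemma for hyperplanes, from Roth's lemma
-/

set_option autoImplicit false
set_option linter.unusedSectionVars false

namespace Pool.Agent.Helper80.Sub

open Pool.Agent.Helper10.Sub
open MvPolynomial Finset

/-- The statement of Roth's lemma (module ROTH1). -/
def Roth1Statement : Prop := ∀ (b : ℕ) (ε : ℝ) (_ : 0 < ε), ∃ ω c : ℝ, 0 < ω ∧ 0 < c ∧
    ∀ (r : Fin b → ℕ), (∀ h, 1 ≤ r h) → (∀ h h', h < h' → (r h' : ℝ) ≤ ω * r h) →
    ∀ (P : MvPolynomial (Fin b) ℤ), P ≠ 0 → (∀ e ∈ P.support, ∀ h, e h ≤ r h) →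
    ∀ (B : ℝ), 1 ≤ B → (∀ e, |((P.coeff e : ℤ) : ℝ)| ≤ B) →
    ∀ (ξ : Fin b → ℚ), (∀ h h', Real.log B + c * r h' ≤ ω * (r h * Real.log (ht (ξ h)))) →
    ∃ k : Fin b →₀ ℕ, wt r k ≤ ε ∧ eval ξ (hd k (map (Int.castRingHom ℚ) P)) ≠ 0

section height
variable {ι : Type*} [Fintype ι] [DecidableEq ι]

lemma exists_max (m : ι → ℤ) (h : m ≠ 0) : ∃ i, (m i).natAbs = univ.sup (fun i => (m i).natAbs) ∧
    m i ≠ 0 := by
  obtain ⟨j, hj⟩ : ∃ j, m j ≠ 0 := by
    by_contra hc
    push Not at hc
    exact h (funext hc)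
  obtain ⟨i, -, hi⟩ := Finset.exists_mem_eq_sup univ ⟨j, mem_univ j⟩ (fun i => (m i).natAbs)
  refine ⟨i, hi.symm, ?_⟩
  intro h0
  have : (m j).natAbs ≤ (m i).natAbs := by
    rw [← hi]
    exact Finset.le_sup (f := fun i => (m i).natAbs) (mem_univ j)
  rw [h0] at this
  simp at this
  exact hj this

lemma prim_ne_zero {m : ι → ℤ} (h : Prim m) : m ≠ 0 := by
  rintro rfl
  have := h 2 (fun i => by simp)
  rw [Int.isUnit_iff] at this
  omega

/-- A coordinate quotient of a primitive vector of large height has large denominator. -/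
lemma exists_den (m : ι → ℤ) (hm : Prim m) (i : ι) (hi : m i ≠ 0)
    (hcard : 2 ≤ Fintype.card ι) :
    ∃ l, l ≠ i ∧ Real.log ((m i).natAbs) ≤
      ((Fintype.card ι : ℝ) - 1) * Real.log ((-(m l : ℚ) / (m i : ℚ)).den) := by
  set d : ι → ℕ := fun l => (-(m l : ℚ) / (m i : ℚ)).den with hd
  have hdpos : ∀ l, 0 < d l := fun l => (-(m l : ℚ) / (m i : ℚ)).den_pos
  set D : ℕ := ∏ l ∈ univ.erase i, d l with hD
  have hDpos : 0 < D := Finset.prod_pos fun l _ => hdpos l
  -- `m i ∣ D * m l`
  have h1 : ∀ l, m i ∣ (D : ℤ) * m l := by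
    intro l
    by_cases hl : l = i
    · rw [hl]; exact dvd_mul_left _ _
    · have hdl : (d l : ℕ) ∣ D := Finset.dvd_prod_of_mem d (by simp [hl])
      have h2 : m i ∣ (d l : ℤ) * m l := by
        have h3 : (-(m l : ℚ) / (m i : ℚ)) * (d l : ℚ) = (-(m l : ℚ) / (m i : ℚ)).num :=
          Rat.mul_den_eq_num _
        have hi' : (m i : ℚ) ≠ 0 := by exact_mod_cast hi
        have h4 : (-(m l : ℚ)) * (d l : ℚ) = (-(m l : ℚ) / (m i : ℚ)).num * (m i : ℚ) := by
          rw [← h3]; field_simp
        have h5 : (-(m l)) * (d l : ℤ) = (-(m l : ℚ) / (m i : ℚ)).num * (m i) := by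
          exact_mod_cast h4
        refine ⟨-(-(m l : ℚ) / (m i : ℚ)).num, ?_⟩
        linear_combination -h5
      obtain ⟨t, ht⟩ := hdl
      rw [ht]
      push_cast
      rw [mul_comm (d l : ℤ), mul_assoc]
      exact Dvd.dvd.mul_left h2 _
  have h6 : m i ∣ (D : ℤ) := by
    have h7 : m i ∣ univ.gcd (fun l => (D : ℤ) * m l) := Finset.dvd_gcd fun l _ => h1 l
    rw [Finset.gcd_mul_left] at h7
    have h8 : IsUnit (univ.gcd m) := hm _ (fun l => Finset.gcd_dvd (mem_univ l))
    rw [h8.dvd_mul_right, dvd_normalize_iff] at h7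
    exact h7
  have h9 : (m i).natAbs ≤ D := by
    have := Int.natAbs_dvd_natAbs.mpr h6
    rw [Int.natAbs_natCast] at this
    exact Nat.le_of_dvd hDpos this
  have hne : (univ.erase i).Nonempty := by
    rw [← Finset.card_pos, Finset.card_erase_of_mem (mem_univ i), Finset.card_univ]
    omega
  obtain ⟨l, hl, hmax⟩ := Finset.exists_max_image (univ.erase i) (fun l => Real.log (d l)) hne
  refine ⟨l, by simpa using hl, ?_⟩
  have h10 : Real.log ((m i).natAbs) ≤ Real.log D := by
    apply Real.log_le_log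
    · exact_mod_cast Int.natAbs_pos.mpr hi
    · exact_mod_cast h9
  have h11 : Real.log D = ∑ l ∈ univ.erase i, Real.log (d l) := by
    rw [hD, Nat.cast_prod, Real.log_prod]
    intro l _
    exact_mod_cast (hdpos l).ne'
  have h12 : ∑ l ∈ univ.erase i, Real.log (d l) ≤ (univ.erase i).card • Real.log (d l) :=
    Finset.sum_le_card_nsmul _ _ _ hmax
  rw [Finset.card_erase_of_mem (mem_univ i), Finset.card_univ, nsmul_eq_mul,
    Nat.cast_sub (by omega), Nat.cast_one] at h12
  linarith

end height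

section main
variable {b : ℕ} {ι : Type*} [Fintype ι] [DecidableEq ι] {R : Type*} [CommRing R]
variable (I L : Fin b → ι)

/-- Variables other than the distinguished ones. -/
def Oth (q : Fin b × ι) : Prop := q.2 ≠ I q.1 ∧ q.2 ≠ L q.1

instance : DecidablePred (Oth I L) := fun q => by unfold Oth; infer_instance

/-- Images of the variables. -/
noncomputable def gg (R : Type*) [CommRing R] (q : Fin b × ι) :
    MvPolynomial (Fin b × ι) (MvPolynomial (Fin b) R) :=
  if q.2 = I q.1 then C (X q.1) else if q.2 = L q.1 then 1 else X q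

/-- `P` as a polynomial in the other variables, with coefficients polynomials in the `x_h`. -/
noncomputable def Psi (R : Type*) [CommRing R] :
    MvPolynomial (Fin b × ι) R →+* MvPolynomial (Fin b × ι) (MvPolynomial (Fin b) R) :=
  eval₂Hom (C.comp C) (gg I L R)

/-- The exponents of the `x_h`. -/
noncomputable def xp (e : (Fin b × ι) →₀ ℕ) : Fin b →₀ ℕ :=
  Finsupp.equivFunOnFinite.symm fun h => e (h, I h)

@[simp] lemma xp_apply (e : (Fin b × ι) →₀ ℕ) (h : Fin b) : xp I e h = e (h, I h) := rfl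

lemma xp_add (e f : (Fin b × ι) →₀ ℕ) : xp I (e + f) = xp I e + xp I f := by
  ext h; simp

/-- Other exponents. -/
noncomputable def oth (e : (Fin b × ι) →₀ ℕ) : (Fin b × ι) →₀ ℕ := e.filter (Oth I L)

lemma Psi_monomial (e : (Fin b × ι) →₀ ℕ) (a : R) :
    Psi I L R (monomial e a) = monomial (oth I L e) (monomial (xp I e) a) := by
  have h1 : ∀ e : (Fin b × ι) →₀ ℕ, Psi I L R (monomial e 1) =
      monomial (oth I L e) (monomial (xp I e) 1) := by
    intro e
    induction e using Finsupp.induction_linear with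
    | zero =>
      have h0 : xp I (0 : (Fin b × ι) →₀ ℕ) = 0 := by ext; simp
      rw [h0, oth, Finsupp.filter_zero]
      simp [Psi]
    | add e f he hf =>
      have : (monomial (e + f) (1 : R)) = monomial e 1 * monomial f 1 := by
        rw [monomial_mul, one_mul]
      rw [this, map_mul, he, hf, monomial_mul, monomial_mul, one_mul, xp_add, oth, oth, oth,
        Finsupp.filter_add]
    | single q n =>
      have h2 : (monomial (Finsupp.single q n) (1 : R)) = X q ^ n := by
        rw [X_pow_eq_monomial]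
      rw [h2, map_pow, Psi, eval₂Hom_X', gg]
      split_ifs with hI hL
      · have ho : oth I L (Finsupp.single q n) = 0 := by
          rw [oth, Finsupp.filter_single_of_neg]
          intro hc; exact hc.1 hI
        have hx : xp I (Finsupp.single q n) = Finsupp.single q.1 n := by
          ext h
          rw [xp_apply, Finsupp.single_apply, Finsupp.single_apply]
          by_cases hh : q.1 = h
          · subst hh
            rw [if_pos rfl, if_pos]
            exact Prod.ext rfl hI
          · rw [if_neg hh, if_neg]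
            intro hc; exact hh (by rw [hc])
        rw [ho, hx, ← map_pow, X_pow_eq_monomial]
        rfl
      · have ho : oth I L (Finsupp.single q n) = 0 := by
          rw [oth, Finsupp.filter_single_of_neg]
          intro hc; exact hc.2 hL
        have hx : xp I (Finsupp.single q n) = 0 := by
          ext h
          rw [xp_apply, Finsupp.single_apply, Finsupp.zero_apply, if_neg]
          intro hc
          apply hI
          rw [hc]
        rw [ho, hx, one_pow]
        rfl
      · have ho : oth I L (Finsupp.single q n) = Finsupp.single q n := by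
          rw [oth, Finsupp.filter_single_of_pos]
          exact ⟨hI, hL⟩
        have hx : xp I (Finsupp.single q n) = 0 := by
          ext h
          rw [xp_apply, Finsupp.single_apply, Finsupp.zero_apply, if_neg]
          intro hc
          apply hI
          rw [hc]
        rw [ho, hx, X_pow_eq_monomial]
        rfl
  have h3 : (monomial e a : MvPolynomial (Fin b × ι) R) = C a * monomial e 1 := by
    rw [C_mul_monomial, mul_one]
  rw [h3, map_mul, h1, Psi, eval₂Hom_C, RingHom.comp_apply, C_mul_monomial, C_mul_monomial,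
    mul_one]

lemma coeff_Psi (F : MvPolynomial (Fin b × ι) R) (J : (Fin b × ι) →₀ ℕ) :
    coeff J (Psi I L R F) = ∑ e ∈ F.support, if oth I L e = J then monomial (xp I e) (coeff e F)
      else 0 := by
  conv_lhs => rw [F.as_sum, map_sum, coeff_sum]
  apply Finset.sum_congr rfl
  intro e _
  rw [Psi_monomial, coeff_monomial]

lemma coeff_coeff_Psi (F : MvPolynomial (Fin b × ι) R) (J : (Fin b × ι) →₀ ℕ)
    (f : Fin b →₀ ℕ) :
    coeff f (coeff J (Psi I L R F)) = ∑ e ∈ F.support, if oth I L e = J ∧ xp I e = f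
      then coeff e F else 0 := by
  rw [coeff_Psi, coeff_sum]
  apply Finset.sum_congr rfl
  intro e _
  by_cases h : oth I L e = J
  · rw [if_pos h, coeff_monomial]
    by_cases h2 : xp I e = f
    · rw [if_pos h2, if_pos ⟨h, h2⟩]
    · rw [if_neg h2, if_neg (fun hc => h2 hc.2)]
  · rw [if_neg h, if_neg (fun hc => h hc.1), coeff_zero]

/-- Block homogeneous exponents are determined by the two parts. -/
lemma exp_inj (r : Fin b → ℕ) {e e' : (Fin b × ι) →₀ ℕ}
    (he : ∀ h, ∑ i, e (h, i) = r h) (he' : ∀ h, ∑ i, e' (h, i) = r h)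
    (ho : oth I L e = oth I L e') (hx : xp I e = xp I e') : e = e' := by
  have h1 : ∀ h i, i ≠ L h → e (h, i) = e' (h, i) := by
    intro h i hi
    by_cases hi2 : i = I h
    · have := DFunLike.congr_fun hx h
      rw [xp_apply, xp_apply] at this
      rw [hi2]; exact this
    · have hO : Oth I L (h, i) := ⟨hi2, hi⟩
      have := DFunLike.congr_fun ho (h, i)
      rw [oth, oth, Finsupp.filter_apply_pos _ _ hO, Finsupp.filter_apply_pos _ _ hO] at this
      exact this
  ext ⟨h, i⟩
  by_cases hi : i = L h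
  · have h2 := he h
    have h3 := he' h
    rw [← Finset.add_sum_erase _ _ (mem_univ (L h))] at h2 h3
    have h4 : ∑ x ∈ univ.erase (L h), e (h, x) = ∑ x ∈ univ.erase (L h), e' (h, x) := by
      apply Finset.sum_congr rfl
      intro x hx
      exact h1 h x (by simpa using hx)
    rw [hi]
    omega
  · exact h1 h i hi

/-- The exponent vector supported on the `x_h`. -/
noncomputable def KK (k : Fin b →₀ ℕ) : (Fin b × ι) →₀ ℕ :=
  Finsupp.equivFunOnFinite.symm fun q => if q.2 = I q.1 then k q.1 else 0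

@[simp] lemma KK_apply (k : Fin b →₀ ℕ) (q : Fin b × ι) :
    KK I k q = if q.2 = I q.1 then k q.1 else 0 := rfl

lemma wtB_KK (r : Fin b → ℕ) (k : Fin b →₀ ℕ) : wtB r (KK I k) = wt r k := by
  unfold wtB wt
  apply Finset.sum_congr rfl
  intro h _
  congr 2
  rw [Finset.sum_eq_single (I h)]
  · simp
  · intro i _ hi
    rw [KK_apply, if_neg hi]
  · intro hc; exact absurd (mem_univ _) hc

lemma prod_KK (e : (Fin b × ι) →₀ ℕ) (k : Fin b →₀ ℕ) :
    ∏ q, (e q).choose (KK I k q) = ∏ h, (xp I e h).choose (k h) := by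
  rw [Fintype.prod_prod_type]
  apply Finset.prod_congr rfl
  intro h _
  rw [Finset.prod_eq_single (I h)]
  · simp
  · intro i _ hi
    rw [KK_apply, if_neg hi, Nat.choose_zero_right]
  · intro hc; exact absurd (mem_univ _) hc

lemma Psi_hd (F : MvPolynomial (Fin b × ι) R) (k : Fin b →₀ ℕ) (J : (Fin b × ι) →₀ ℕ) :
    coeff J (Psi I L R (hd (KK I k) F)) = hd k (coeff J (Psi I L R F)) := by
  rw [hd_eq_sum, map_sum, coeff_sum, coeff_Psi, hd_sum]
  apply Finset.sum_congr rfl
  intro e _
  rw [Psi_monomial, coeff_monomial]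
  have h1 : oth I L (e - KK I k) = oth I L e := by
    ext q
    rw [oth, oth]
    by_cases hq : Oth I L q
    · rw [Finsupp.filter_apply_pos _ _ hq, Finsupp.filter_apply_pos _ _ hq, Finsupp.tsub_apply,
        KK_apply, if_neg hq.1, Nat.sub_zero]
    · rw [Finsupp.filter_apply_neg _ _ hq, Finsupp.filter_apply_neg _ _ hq]
  have h2 : xp I (e - KK I k) = xp I e - k := by
    ext h
    simp
  rw [h1]
  split_ifs with hJ
  · rw [hd_monomial, h2, prod_KK]
  · rw [hd_zero]

/-- The linear forms giving the hyperplanes. -/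
noncomputable def lin (m : Fin b → ι → ℚ) (h : Fin b) : MvPolynomial (Fin b × ι) ℚ :=
  ∑ i ∈ univ.erase (I h), C (-(m h i) / m h (I h)) * (if i = L h then 1 else X (h, i))

/-- Substitute the linear forms for the `x_h`. -/
noncomputable def EE (m : Fin b → ι → ℚ) : MvPolynomial (Fin b) ℚ →+* MvPolynomial (Fin b × ι) ℚ :=
  eval₂Hom C (lin I L m)

/-- The point of the product of hyperplanes with given other coordinates. -/
noncomputable def zz (m : Fin b → ι → ℚ) (y : Fin b × ι → ℚ) (h : Fin b) (i : ι) : ℚ :=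
  if i = I h then ∑ i ∈ univ.erase (I h), (-(m h i) / m h (I h)) * (if i = L h then 1 else y (h, i))
  else if i = L h then 1 else y (h, i)

lemma zz_sum (m : Fin b → ι → ℚ) (hm : ∀ h, m h (I h) ≠ 0) (y : Fin b × ι → ℚ) (h : Fin b) :
    ∑ i, m h i * zz I L m y h i = 0 := by
  rw [← Finset.add_sum_erase _ _ (mem_univ (I h))]
  have h1 : zz I L m y h (I h) = ∑ i ∈ univ.erase (I h), (-(m h i) / m h (I h)) *
      (if i = L h then 1 else y (h, i)) := by
    rw [zz, if_pos rfl]
  rw [h1, Finset.mul_sum, ← Finset.sum_add_distrib]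
  apply Finset.sum_eq_zero
  intro i hi
  have hi' : i ≠ I h := by simpa using hi
  rw [zz, if_neg hi']
  have := hm h
  field_simp
  ring

lemma eval_comp (m : Fin b → ι → ℚ) (y : Fin b × ι → ℚ) (F : MvPolynomial (Fin b × ι) ℚ) :
    eval y (eval₂Hom (EE I L m) X (Psi I L ℚ F)) = eval (fun q => zz I L m y q.1 q.2) F := by
  have : ((eval y).comp ((eval₂Hom (EE I L m) X).comp (Psi I L ℚ))) =
      (eval (fun q : Fin b × ι => zz I L m y q.1 q.2)) := by
    apply MvPolynomial.ringHom_ext
    · intro a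
      simp [Psi, EE]
    · intro q
      simp only [RingHom.comp_apply, Psi, eval₂Hom_X', eval_X]
      rw [gg, zz]
      split_ifs with hI hL
      · simp only [eval₂Hom_C, EE, eval₂Hom_X', lin, map_sum, map_mul, eval_C]
        apply Finset.sum_congr rfl
        intro i _
        congr 1
        split_ifs <;> simp
      · simp
      · simp
  exact congrArg (fun f => f F) this

lemma constantCoeff_EE (m : Fin b → ι → ℚ) (hIL : ∀ h, I h ≠ L h) (Q : MvPolynomial (Fin b) ℚ) :
    coeff 0 (EE I L m Q) = eval (fun h => -(m h (L h)) / m h (I h)) Q := by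
  have : (constantCoeff.comp (EE I L m)) = eval (fun h => -(m h (L h)) / m h (I h)) := by
    apply MvPolynomial.ringHom_ext
    · intro a
      simp [EE]
    · intro h
      simp only [RingHom.comp_apply, EE, eval₂Hom_X', lin, map_sum, map_mul, eval_X,
        constantCoeff_C]
      rw [Finset.sum_eq_single (L h)]
      · simp
      · intro i _ hi
        rw [if_neg hi]
        simp
      · intro hc
        exact absurd (by simpa using (hIL h).symm) hc
  have h2 := congrArg (fun f => f Q) this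
  simpa [constantCoeff_eq] using h2

lemma coeff_eval₂ (m : Fin b → ι → ℚ) (hIL : ∀ h, I h ≠ L h)
    (Q : MvPolynomial (Fin b × ι) (MvPolynomial (Fin b) ℚ))
    (J : (Fin b × ι) →₀ ℕ) (hmin : ∀ J' ∈ Q.support, ∑ q, J q ≤ ∑ q, J' q) :
    coeff J (eval₂Hom (EE I L m) X Q) =
      eval (fun h => -(m h (L h)) / m h (I h)) (coeff J Q) := by
  classical
  rw [coe_eval₂Hom, eval₂_eq, coeff_sum]
  have h1 : ∀ J' ∈ Q.support, J' ≠ J →
      coeff J ((EE I L m) (coeff J' Q) * ∏ i ∈ J'.support, X i ^ J' i) = 0 := by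
    intro J' hJ' hne
    have : ∏ i ∈ J'.support, (X i : MvPolynomial (Fin b × ι) ℚ) ^ J' i = monomial J' 1 := by
      rw [monomial_eq]; simp [Finsupp.prod]
    rw [this, coeff_mul_monomial', if_neg]
    intro hle
    apply hne
    have h2 := hmin J' hJ'
    have h3 : ∀ q, J' q ≤ J q := fun q => hle q
    have h4 : ∑ q, J' q = ∑ q, J q := le_antisymm (Finset.sum_le_sum fun q _ => h3 q) h2
    have h5 := (Finset.sum_eq_sum_iff_of_le (fun q _ => h3 q)).mp h4
    ext q
    exact h5 q (mem_univ q)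
  by_cases hJ : J ∈ Q.support
  · rw [Finset.sum_eq_single_of_mem J hJ h1]
    have : ∏ i ∈ J.support, (X i : MvPolynomial (Fin b × ι) ℚ) ^ J i = monomial J 1 := by
      rw [monomial_eq]; simp [Finsupp.prod]
    rw [this, coeff_mul_monomial', if_pos le_rfl, mul_one, tsub_self, constantCoeff_EE _ _ _ hIL]
  · rw [notMem_support_iff.mp hJ, map_zero]
    apply Finset.sum_eq_zero
    intro J' hJ'
    apply h1 J' hJ'
    rintro rfl
    exact hJ hJ'

end main

/-- Roth's lemma for hyperplanes, assuming Roth's lemma for rational points. -/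
theorem rothH_of_roth1 (hR : Roth1Statement) (ι : Type) [Fintype ι] [DecidableEq ι]
    (hι : 2 ≤ Fintype.card ι) (b : ℕ)
    (ε : ℝ) (hε : 0 < ε) : ∃ ω c : ℝ, 0 < ω ∧ 0 < c ∧
    ∀ (r : Fin b → ℕ), (∀ h, 1 ≤ r h) → (∀ h h', h < h' → (r h' : ℝ) ≤ ω * r h) →
    ∀ (P : MvPolynomial (Fin b × ι) ℤ), P ≠ 0 → (∀ e ∈ P.support, ∀ h, ∑ i, e (h, i) = r h) →
    ∀ (B : ℝ), 1 ≤ B → (∀ e, |((P.coeff e : ℤ) : ℝ)| ≤ B) →
    ∀ (m : Fin b → ι → ℤ), (∀ h, Prim (m h)) →
    (∀ h h', Real.log B + c * r h' ≤ ω * (r h * Real.log (htv (m h)))) →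
    ∃ k : (Fin b × ι) →₀ ℕ, wtB r k ≤ ε ∧ ∃ z : Fin b → ι → ℚ, (∀ h, ∑ i, (m h i : ℚ) * z h i = 0) ∧
      eval (fun q => z q.1 q.2) (hd k (map (Int.castRingHom ℚ) P)) ≠ 0 := by
  classical
  obtain ⟨ω, c, hω, hc, H⟩ := hR b ε hε
  have hn1 : (1 : ℝ) ≤ (Fintype.card ι : ℝ) - 1 := by
    have : (2 : ℝ) ≤ (Fintype.card ι : ℝ) := by exact_mod_cast hι
    linarith
  have hn0 : (0 : ℝ) < (Fintype.card ι : ℝ) - 1 := by linarith
  refine ⟨ω / ((Fintype.card ι : ℝ) - 1), c, by positivity, hc, ?_⟩
  intro r hr hr2 P hP hdeg B hB hBc m hm hlog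
  -- choose the distinguished coordinates
  choose I hI1 hI2 using fun h => exists_max (m h) (prim_ne_zero (hm h))
  choose L hL1 hL2 using fun h => exists_den (m h) (hm h) (I h) (hI2 h) hι
  have hIL : ∀ h, I h ≠ L h := fun h => (hL1 h).symm
  -- the lowest exponent
  obtain ⟨e0, he0, hmin⟩ := Finset.exists_min_image P.support (fun e => ∑ q, oth I L e q)
    (Finset.nonempty_iff_ne_empty.mpr (by rwa [Ne, MvPolynomial.support_eq_empty]))
  set J0 := oth I L e0 with hJ0
  set Pt : MvPolynomial (Fin b) ℤ := coeff J0 (Psi I L ℤ P) with hPt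
  have hcoef : ∀ e ∈ P.support, ∀ J f, oth I L e = J → xp I e = f →
      coeff f (coeff J (Psi I L ℤ P)) = coeff e P := by
    intro e he J f h1 h2
    rw [coeff_coeff_Psi, Finset.sum_eq_single_of_mem e he, if_pos ⟨h1, h2⟩]
    intro e' he' hne
    rw [if_neg]
    rintro ⟨h3, h4⟩
    exact hne (exp_inj I L r (hdeg e' he') (hdeg e he) (h3.trans h1.symm) (h4.trans h2.symm))
  have hcoef0 : ∀ J f, coeff f (coeff J (Psi I L ℤ P)) ≠ 0 → ∃ e ∈ P.support, oth I L e = J ∧
      xp I e = f := by
    intro J f hne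
    rw [coeff_coeff_Psi] at hne
    obtain ⟨e, he, h1⟩ := Finset.exists_ne_zero_of_sum_ne_zero hne
    refine ⟨e, he, ?_⟩
    by_contra hc
    rw [if_neg hc] at h1
    exact h1 rfl
  have hPt0 : Pt ≠ 0 := by
    intro h0
    have h1 := hcoef e0 he0 J0 (xp I e0) rfl rfl
    rw [← hPt, h0, coeff_zero] at h1
    exact (mem_support_iff.mp he0) h1.symm
  have hPtdeg : ∀ e ∈ Pt.support, ∀ h, e h ≤ r h := by
    intro f hf h
    rw [mem_support_iff] at hf
    obtain ⟨e, he, -, h2⟩ := hcoef0 J0 f hf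
    rw [← h2, xp_apply, ← hdeg e he h]
    exact Finset.single_le_sum (f := fun i => e (h, i)) (fun i _ => Nat.zero_le _) (mem_univ (I h))
  have hPtB : ∀ f, |((Pt.coeff f : ℤ) : ℝ)| ≤ B := by
    intro f
    by_cases hf : coeff f Pt = 0
    · rw [hf]; simp; linarith
    · obtain ⟨e, he, h1, h2⟩ := hcoef0 J0 f hf
      rw [hPt, hcoef e he J0 f h1 h2]
      exact hBc e
  set ξ : Fin b → ℚ := fun h => -(m h (L h) : ℚ) / (m h (I h) : ℚ) with hξ
  have hlog2 : ∀ h, Real.log (htv (m h)) ≤ ((Fintype.card ι : ℝ) - 1) * Real.log (ht (ξ h)) := by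
    intro h
    have h1 : htv (m h) = ((m h (I h)).natAbs : ℝ) := by
      rw [htv, ← hI1 h]
    rw [h1]
    refine (hL2 h).trans ?_
    apply mul_le_mul_of_nonneg_left _ hn0.le
    apply Real.log_le_log
    · exact Nat.cast_pos.mpr (ξ h).den_pos
    · exact le_max_right _ _
  obtain ⟨k, hk1, hk2⟩ := H r hr
    (fun h h' hh => (hr2 h h' hh).trans (by
      apply mul_le_mul_of_nonneg_right _ (Nat.cast_nonneg _)
      exact div_le_self hω.le hn1))
    Pt hPt0 hPtdeg B hB hPtB ξ
    (fun h h' => (hlog h h').trans (by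
      rw [div_mul_eq_mul_div, div_le_iff₀ hn0, mul_assoc]
      apply mul_le_mul_of_nonneg_left _ hω.le
      rw [mul_assoc]
      apply mul_le_mul_of_nonneg_left _ (Nat.cast_nonneg _)
      have := hlog2 h
      linarith))
  refine ⟨KK I k, by rw [wtB_KK]; exact hk1, ?_⟩
  set P' := map (Int.castRingHom ℚ) P with hP'
  set mq : Fin b → ι → ℚ := fun h i => (m h i : ℚ) with hmq
  -- naturality of `Psi`
  have hnat : ∀ J, coeff J (Psi I L ℚ P') = map (Int.castRingHom ℚ) (coeff J (Psi I L ℤ P)) := by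
    intro J
    have hcomp : (Psi I L ℚ).comp (map (Int.castRingHom ℚ)) =
        (map (map (Int.castRingHom ℚ))).comp (Psi I L ℤ) := by
      apply MvPolynomial.ringHom_ext
      · intro a
        simp [Psi]
      · intro q
        simp only [RingHom.comp_apply, map_X, Psi, eval₂Hom_X', gg]
        split_ifs <;> simp
    have := congrArg (fun f => f P) hcomp
    simp only [RingHom.comp_apply] at this
    rw [hP', this, coeff_map]
  set Q := Psi I L ℚ (hd (KK I k) P') with hQ
  have hQJ : ∀ J, coeff J Q = hd k (map (Int.castRingHom ℚ) (coeff J (Psi I L ℤ P))) := by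
    intro J
    rw [hQ, Psi_hd, hnat]
  have hQmin : ∀ J' ∈ Q.support, ∑ q, J0 q ≤ ∑ q, J' q := by
    intro J' hJ'
    rw [mem_support_iff, hQJ] at hJ'
    have h1 : coeff J' (Psi I L ℤ P) ≠ 0 := by
      intro h0
      apply hJ'
      rw [h0, map_zero, hd_zero]
    obtain ⟨f, hf⟩ := MvPolynomial.ne_zero_iff.mp h1
    obtain ⟨e, he, h2, -⟩ := hcoef0 J' f hf
    rw [← h2]
    exact hmin e he
  have hne : eval₂Hom (EE I L mq) X Q ≠ 0 := by
    intro h0
    have h1 := coeff_eval₂ I L mq hIL Q J0 hQmin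
    rw [h0, coeff_zero, hQJ] at h1
    exact hk2 h1.symm
  obtain ⟨y, hy⟩ : ∃ y, eval y (eval₂Hom (EE I L mq) X Q) ≠ 0 := by
    by_contra hc
    push Not at hc
    apply hne
    apply MvPolynomial.funext
    intro y
    rw [hc y, map_zero]
  refine ⟨zz I L mq y, fun h => zz_sum I L mq (fun h => ?_) y h, ?_⟩
  · exact Int.cast_ne_zero.mpr (hI2 h)
  · rw [hQ, eval_comp] at hy
    exact hy

end Pool.Agent.Helper80.Sub
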